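import Mathlib

/-!
Orders at the origin of the iterates of monomial maps. `hom_kill`, `order_lower`, `order_upper`
follow the earlier run's proof for its map of `ℂ³` (library S06280, seeded_bde7d0ef).
-/

set_option autoImplicit false

namespace Pool.Agent.KS6_73.OR

/-- the monomial map of a matrix of natural numbers: `(f z)_i = ∏ z_j ^ A i j` -/
def mono {n : ℕ} (A : Matrix (Fin n) (Fin n) ℕ) (z : Fin n → ℂ) : Fin n → ℂ :=
  fun i => ∏ j, z j ^ A i j

/-- the order at `0` of a holomorphic map -/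
noncomputable def order {n : ℕ} (f : (Fin n → ℂ) → (Fin n → ℂ)) : ℕ :=
  sInf {m : ℕ | iteratedFDeriv ℂ m f 0 ≠ 0}

/-- row sums of the powers -/
def dg {n : ℕ} (A : Matrix (Fin n) (Fin n) ℕ) : ℕ → Fin n → ℕ
  | 0 => fun _ => 1
  | k + 1 => fun i => ∑ j, A i j * dg A k j

variable {n : ℕ} (A : Matrix (Fin n) (Fin n) ℕ)

lemma mono_contDiff : ContDiff ℂ (⊤ : ℕ∞) (mono A) := by
  rw [contDiff_pi]
  intro i
  unfold mono
  fun_prop

lemma monok_contDiff (k : ℕ) : ContDiff ℂ (⊤ : ℕ∞) ((mono A)^[k]) := by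
  induction k with
  | zero => simpa using contDiff_id
  | succ k ih =>
    rw [Function.iterate_succ']
    exact (mono_contDiff A).comp ih

lemma monok_hom (k : ℕ) (t : ℂ) (z : Fin n → ℂ) (i : Fin n) :
    (mono A)^[k] (t • z) i = t ^ (dg A k i) * (mono A)^[k] z i := by
  induction k generalizing i with
  | zero => simp [dg]
  | succ k ih =>
    rw [Function.iterate_succ_apply', Function.iterate_succ_apply']
    show ∏ j, ((mono A)^[k] (t • z) j) ^ A i j = t ^ (∑ j, A i j * dg A k j) *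
      ∏ j, ((mono A)^[k] z j) ^ A i j
    rw [← Finset.prod_pow_eq_pow_sum, ← Finset.prod_mul_distrib]
    refine Finset.prod_congr rfl fun j _ => ?_
    rw [ih j, mul_pow, ← pow_mul, mul_comm (dg A k j)]

lemma monok_one (k : ℕ) : (mono A)^[k] (fun _ => 1) = fun _ => 1 := by
  induction k with
  | zero => rfl
  | succ k ih =>
    rw [Function.iterate_succ_apply', ih]
    funext i
    simp [mono]

lemma hom_kill (g : (Fin n → ℂ) → ℂ) (hg : ContDiff ℂ (⊤ : ℕ∞) g) (d m : ℕ)
    (h : ∀ (t : ℂ) (z : Fin n → ℂ), g (t • z) = t ^ d * g z) (hmd : m ≠ d) :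
    iteratedFDeriv ℂ m g 0 = 0 := by
  have hm : (m : WithTop ℕ∞) ≤ ((⊤ : ℕ∞) : WithTop ℕ∞) := by
    exact_mod_cast le_top
  have e1 := ContinuousLinearMap.iteratedFDeriv_comp_right
    ((2 : ℂ) • ContinuousLinearMap.id ℂ (Fin n → ℂ)) hg 0 hm
  have e2 : g ∘ ((2 : ℂ) • ContinuousLinearMap.id ℂ (Fin n → ℂ)) = (2 : ℂ) ^ d • g := by
    funext z
    simp [h 2 z]
  rw [e2, iteratedFDeriv_const_smul_apply (hg.contDiffAt.of_le hm)] at e1
  ext v
  have e3 : (2 : ℂ) ^ d * iteratedFDeriv ℂ m g 0 v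
      = iteratedFDeriv ℂ m g 0 (fun i => (2 : ℂ) • v i) := by
    have h8 := congrArg (fun q => q v) e1
    simpa using h8
  rw [ContinuousMultilinearMap.map_smul_univ] at e3
  simp only [Finset.prod_const, Finset.card_univ, Fintype.card_fin, smul_eq_mul] at e3
  show iteratedFDeriv ℂ m g 0 v = 0
  have e5 : ((2 : ℂ) ^ d - 2 ^ m) * iteratedFDeriv ℂ m g 0 v = 0 := by
    rw [sub_mul, e3, sub_self]
  rcases mul_eq_zero.mp e5 with h5 | h5
  · exfalso
    apply hmd
    have h6 : ((2 : ℕ) : ℂ) ^ d = ((2 : ℕ) : ℂ) ^ m := by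
      push_cast
      exact sub_eq_zero.mp h5
    have h7 : (2 : ℕ) ^ d = 2 ^ m := by exact_mod_cast h6
    exact (Nat.pow_right_injective (le_refl 2) h7).symm
  · exact h5

lemma order_lower (k m : ℕ) (hm : ∀ i, m ≠ dg A k i) :
    iteratedFDeriv ℂ m ((mono A)^[k]) 0 = 0 := by
  have hmt : (m : WithTop ℕ∞) ≤ ((⊤ : ℕ∞) : WithTop ℕ∞) := by
    exact_mod_cast le_top
  ext v i
  have e1 := ContinuousLinearMap.iteratedFDeriv_comp_left
    (ContinuousLinearMap.proj (R := ℂ) (φ := fun _ : Fin n => ℂ) i)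
    ((monok_contDiff A k).contDiffAt (x := 0)) hmt
  have e2 : iteratedFDeriv ℂ m
      ((ContinuousLinearMap.proj (R := ℂ) (φ := fun _ : Fin n => ℂ) i) ∘ (mono A)^[k]) 0 = 0 := by
    apply hom_kill _ _ (dg A k i) m
    · intro t z
      exact monok_hom A k t z i
    · exact hm i
    · exact (ContinuousLinearMap.contDiff _).comp (monok_contDiff A k)
  rw [e2] at e1
  have e3 := congrArg (fun q => q v) e1
  simpa using e3.symm

lemma order_upper (k : ℕ) (i : Fin n) :
    iteratedFDeriv ℂ (dg A k i) ((mono A)^[k]) 0 ≠ 0 := by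
  intro h0
  set m := dg A k i with hmdef
  have hmt : (m : WithTop ℕ∞) ≤ ((⊤ : ℕ∞) : WithTop ℕ∞) := by
    exact_mod_cast le_top
  let L : ℂ →L[ℂ] (Fin n → ℂ) := ContinuousLinearMap.pi fun _ => ContinuousLinearMap.id ℂ ℂ
  let P := (ContinuousLinearMap.proj (R := ℂ) (φ := fun _ : Fin n => ℂ) i)
  have e1 := ContinuousLinearMap.iteratedFDeriv_comp_right L (monok_contDiff A k) 0 hmt
  rw [map_zero, h0] at e1
  have e2 := ContinuousLinearMap.iteratedFDeriv_comp_left P
    (((monok_contDiff A k).comp L.contDiff).contDiffAt (x := 0)) hmt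
  rw [e1] at e2
  have e3 : P ∘ ((mono A)^[k] ∘ L) = fun t : ℂ => t ^ m := by
    funext t
    have : L t = t • (fun _ => (1 : ℂ)) := by
      funext j; simp [L]
    simp only [Function.comp_apply, this]
    show (mono A)^[k] (t • fun _ => (1 : ℂ)) i = t ^ m
    rw [monok_hom, monok_one]; simp [hmdef]
  rw [e3] at e2
  have e4 : iteratedDeriv m (fun t : ℂ => t ^ m) 0 = 0 := by
    rw [iteratedDeriv_eq_iteratedFDeriv, e2]
    simp
  rw [iteratedDeriv_eq_iterate, iter_deriv_pow] at e4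
  simp at e4
  norm_cast at e4
  revert e4
  simp [Finset.prod_eq_zero_iff]
  try omega

/-- the order of the `k`th iterate is the smallest row sum of `A ^ k` -/
lemma order_eq (k : ℕ) (i : Fin n) (h : ∀ j, dg A k i ≤ dg A k j) :
    order ((mono A)^[k]) = dg A k i := by
  unfold order
  apply le_antisymm
  · exact Nat.sInf_le (order_upper A k i)
  · apply le_csInf ⟨_, order_upper A k i⟩
    intro m hm
    by_contra hlt
    rw [not_le] at hlt
    apply hm
    apply order_lower
    intro j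
    have := h j
    omega

/-- the derivative at a point of the diagonal -/
lemma fderiv_diag (ε : ℂ) (v : Fin n → ℂ) (i : Fin n) :
    fderiv ℂ (mono A) (fun _ => ε) v i =
      ∑ j, (A i j : ℂ) * ε ^ ((∑ l, A i l) - 1) * v j := by
  have h1 : HasFDerivAt (mono A) (ContinuousLinearMap.pi fun i =>
      ∑ j, (∏ l ∈ Finset.univ.erase j, (fun _ : Fin n => ε) l ^ A i l) •
        ((A i j * ε ^ (A i j - 1)) •
          ContinuousLinearMap.proj (R := ℂ) (φ := fun _ : Fin n => ℂ) j)) (fun _ => ε) := by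
    rw [hasFDerivAt_pi]
    intro i
    apply HasFDerivAt.finsetProd
    intro j _
    have h2 : HasFDerivAt (fun z : Fin n → ℂ => z j)
        (ContinuousLinearMap.proj (R := ℂ) (φ := fun _ : Fin n => ℂ) j) (fun _ => ε) :=
      hasFDerivAt_apply j _
    have h3 := h2.pow (A i j)
    convert h3 using 1
    simp
  rw [h1.fderiv]
  simp only [ContinuousLinearMap.coe_pi', FunLike.coe_sum, Finset.sum_apply,
    FunLike.coe_smul, Pi.smul_apply, ContinuousLinearMap.proj_apply, smul_eq_mul]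
  refine Finset.sum_congr rfl fun j _ => ?_
  rw [← mul_assoc]
  congr 1
  rcases Nat.eq_zero_or_pos (A i j) with h | h
  · simp [h]
  · rw [Finset.prod_pow_eq_pow_sum, mul_left_comm, ← pow_add]
    congr 2
    have h5 : A i j + ∑ l ∈ Finset.univ.erase j, A i l = ∑ l, A i l :=
      Finset.add_sum_erase Finset.univ (fun l => A i l) (Finset.mem_univ j)
    omega

lemma det_diag (hA : (A.map (fun a => (a : ℂ))).det ≠ 0) (ε : ℂ) (hε : ε ≠ 0) :
    (fderiv ℂ (mono A) (fun _ => ε)).det ≠ 0 := by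
  have h1 : (fderiv ℂ (mono A) (fun _ => ε) : (Fin n → ℂ) →ₗ[ℂ] (Fin n → ℂ)) =
      Matrix.toLin' (Matrix.diagonal (fun i => ε ^ ((∑ l, A i l) - 1)) *
        A.map (fun a => (a : ℂ))) := by
    apply LinearMap.ext
    intro v
    funext i
    rw [ContinuousLinearMap.coe_coe, fderiv_diag, Matrix.toLin'_apply]
    simp only [Matrix.mulVec, dotProduct, Matrix.diagonal_mul, Matrix.map_apply]
    refine Finset.sum_congr rfl fun j _ => ?_
    ring
  show LinearMap.det (fderiv ℂ (mono A) (fun _ => ε) : (Fin n → ℂ) →ₗ[ℂ] (Fin n → ℂ)) ≠ 0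
  rw [h1, LinearMap.det_toLin', Matrix.det_mul, Matrix.det_diagonal]
  exact mul_ne_zero (Finset.prod_ne_zero_iff.2 fun i _ => pow_ne_zero _ hε) hA

end Pool.Agent.KS6_73.OR
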