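import Mathlib

/-!
A sequence which is `c * Im (μ ^ k)` where this imaginary part is positive and zero elsewhere
satisfies no linear recursion with complex coefficients, if no power of `μ` is real.
`posrun` is the earlier run's lemma (library S06280, seeded_bde7d0ef).
-/

set_option autoImplicit false

open Polynomial

namespace Pool.Agent.KS6_73.OR

lemma posrun (μ z : ℂ) (hμ : μ.im ≠ 0) : ¬ ∀ j : ℕ, 0 < (z * μ ^ j).im := by
  intro hpos
  set g : ℕ → ℝ := fun j => (z * μ ^ j).im with hg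
  have hrec : ∀ j, g (j + 2) = 2 * μ.re * g (j + 1) - (μ.re ^ 2 + μ.im ^ 2) * g j := by
    intro j
    have e1 : z * μ ^ (j + 2) = (z * μ ^ j) * (μ * μ) := by ring
    have e2 : z * μ ^ (j + 1) = (z * μ ^ j) * μ := by ring
    simp only [hg]
    rw [e1, e2]
    generalize z * μ ^ j = w
    simp only [Complex.mul_im, Complex.mul_re]
    ring
  have gp : ∀ j, 0 < g j := hpos
  set h : ℕ → ℝ := fun j => g (j + 1) / g j with hh
  have hp : ∀ j, 0 < h j := fun j => div_pos (gp _) (gp _)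
  have c0 : 0 < μ.im ^ 2 := by positivity
  have step : ∀ j, h (j + 1) ≤ h j - μ.im ^ 2 / h j := by
    intro j
    have e1 : h (j + 1) = 2 * μ.re - (μ.re ^ 2 + μ.im ^ 2) / h j := by
      simp only [hh]
      rw [hrec j]
      have := (gp j).ne'
      have := (gp (j + 1)).ne'
      field_simp
    rw [e1]
    have hj := hp j
    have e2 : (h j - μ.im ^ 2 / h j) - (2 * μ.re - (μ.re ^ 2 + μ.im ^ 2) / h j)
        = (h j - μ.re) ^ 2 / h j := by
      field_simp
      ring
    have e3 : 0 ≤ (h j - μ.re) ^ 2 / h j := by positivity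
    linarith
  have bound : ∀ j : ℕ, h j ≤ h 0 - j * (μ.im ^ 2 / h 0) := by
    intro j
    induction j with
    | zero => simp
    | succ j ih =>
      have h1 := step j
      have hj := hp j
      have h0 := hp 0
      have h2 : h j ≤ h 0 := by
        have : 0 ≤ (j : ℝ) * (μ.im ^ 2 / h 0) := by positivity
        linarith
      have h3 : μ.im ^ 2 / h 0 ≤ μ.im ^ 2 / h j :=
        div_le_div_of_nonneg_left c0.le hj h2
      push_cast
      linarith
  have h0 := hp 0
  have c1 : 0 < μ.im ^ 2 / h 0 := by positivity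
  obtain ⟨n, hn⟩ := exists_nat_gt (h 0 / (μ.im ^ 2 / h 0))
  rw [div_lt_iff₀ c1] at hn
  have := bound n
  have := hp n
  linarith

/-- the shift -/
noncomputable def E : Module.End ℂ (ℕ → ℂ) := LinearMap.funLeft ℂ ℂ (fun k => k + 1)

lemma E_pow (i : ℕ) (v : ℕ → ℂ) (k : ℕ) : (E ^ i) v k = v (k + i) := by
  induction i generalizing k with
  | zero => simp
  | succ i ih =>
    rw [pow_succ', Module.End.mul_apply]
    show (E ^ i) v (k + 1) = _
    rw [ih]
    congr 1
    ring

lemma aeval_E (p : ℂ[X]) (v : ℕ → ℂ) (k : ℕ) :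
    aeval E p v k = ∑ i ∈ Finset.range (p.natDegree + 1), p.coeff i * v (k + i) := by
  rw [Polynomial.aeval_eq_sum_range, LinearMap.sum_apply, Finset.sum_apply]
  refine Finset.sum_congr rfl fun i _ => ?_
  rw [LinearMap.smul_apply, Pi.smul_apply, E_pow, smul_eq_mul]

variable (μ : ℂ)

/-- the positive part of `Im (μ ^ k)` -/
noncomputable def pp (c : ℂ) (k : ℕ) : ℂ := if 0 < (μ ^ k).im then c * ((μ ^ k).im : ℂ) else 0

open Classical in
/-- the sign pattern of length `N + 1` at `k` -/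
noncomputable def W (N k : ℕ) : Fin (N + 1) → Bool := fun j => decide (0 < (μ ^ (k + (j : ℕ))).im)

/-- the coefficient of a sign pattern -/
noncomputable def co (P : ℂ[X]) (z : ℂ) (w : Fin (P.natDegree + 1) → Bool) : ℂ :=
  ∑ j : Fin (P.natDegree + 1), if w j then P.coeff j * z ^ (j : ℕ) else 0

lemma rel (P : ℂ[X]) (c : ℂ) (hc : c ≠ 0) (k : ℕ) (h : aeval E P (pp μ c) k = 0) :
    μ ^ k * co P μ (W μ P.natDegree k) =
      (starRingEnd ℂ μ) ^ k * co P (starRingEnd ℂ μ) (W μ P.natDegree k) := by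
  rw [aeval_E, Finset.sum_range] at h
  have h2 : (c / (2 * Complex.I)) * (μ ^ k * co P μ (W μ P.natDegree k) -
      (starRingEnd ℂ μ) ^ k * co P (starRingEnd ℂ μ) (W μ P.natDegree k)) = 0 := by
    rw [← h]
    unfold co
    rw [Finset.mul_sum, Finset.mul_sum, ← Finset.sum_sub_distrib, Finset.mul_sum]
    refine Finset.sum_congr rfl fun j _ => ?_
    unfold pp W
    by_cases hj : 0 < (μ ^ (k + (j : ℕ))).im
    · simp only [hj, decide_true, if_true]
      rw [Complex.im_eq_sub_conj, map_pow]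
      ring
    · simp only [hj, decide_false, if_false]
      simp
  rcases mul_eq_zero.1 h2 with h3 | h3
  · exfalso
    have : (2 * Complex.I) ≠ 0 := by simp
    exact (div_ne_zero hc this) h3
  · exact sub_eq_zero.1 h3

lemma twice (P : ℂ[X]) (c : ℂ) (hc : c ≠ 0) (hμ : ∀ m, 0 < m → (μ ^ m).im ≠ 0) (k k' : ℕ)
    (hk : k < k') (h : aeval E P (pp μ c) k = 0) (h' : aeval E P (pp μ c) k' = 0)
    (hW : W μ P.natDegree k = W μ P.natDegree k') : co P μ (W μ P.natDegree k) = 0 := by
  have h1 := rel μ P c hc k h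
  have h2 := rel μ P c hc k' h'
  rw [← hW] at h2
  obtain ⟨T, rfl⟩ := Nat.exists_eq_add_of_lt hk
  have hμ0 : μ ≠ 0 := by
    intro h0
    apply hμ 1 one_pos
    simp [h0]
  have hμ1 : starRingEnd ℂ μ ≠ 0 := by simpa using hμ0
  set a := co P μ (W μ P.natDegree k)
  set b := co P (starRingEnd ℂ μ) (W μ P.natDegree k)
  have h3 : (μ ^ (T + 1) - (starRingEnd ℂ μ) ^ (T + 1)) * ((starRingEnd ℂ μ) ^ k * b) = 0 := by
    have e1 : μ ^ (k + T + 1) * a = μ ^ (T + 1) * (μ ^ k * a) := by ring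
    have e2 : (starRingEnd ℂ μ) ^ (k + T + 1) * b =
      (starRingEnd ℂ μ) ^ (T + 1) * ((starRingEnd ℂ μ) ^ k * b) := by ring
    rw [e1, e2, h1] at h2
    rw [sub_mul, h2, sub_self]
  rcases mul_eq_zero.1 h3 with h4 | h4
  · exfalso
    apply hμ (T + 1) (Nat.succ_pos _)
    rw [← map_pow] at h4
    exact Complex.conj_eq_iff_im.1 (sub_eq_zero.1 h4).symm
  · rcases mul_eq_zero.1 h4 with h5 | h5
    · exact absurd h5 (pow_ne_zero _ hμ1)
    · rw [h4] at h1
      rcases mul_eq_zero.1 h1 with h6 | h6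
      · exact absurd h6 (pow_ne_zero _ hμ0)
      · exact h6

/-- two late positions with the same next `N` signs and different signs after that -/
lemma special (hμ : ∀ m, 0 < m → (μ ^ m).im ≠ 0) (N K : ℕ) :
    ∃ k k', K ≤ k ∧ K ≤ k' ∧ (∀ j : ℕ, j < N → (0 < (μ ^ (k + j)).im ↔ 0 < (μ ^ (k' + j)).im)) ∧
      ¬ (0 < (μ ^ (k + N)).im ↔ 0 < (μ ^ (k' + N)).im) := by
  classical
  by_contra hcon
  push Not at hcon
  obtain ⟨p, q, hlt, heq⟩ : ∃ p q, p < q ∧
      (fun j : Fin N => decide (0 < (μ ^ (K + 1 + p + (j : ℕ))).im)) =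
      (fun j : Fin N => decide (0 < (μ ^ (K + 1 + q + (j : ℕ))).im)) := by
    obtain ⟨p, q, hne, heq⟩ := Finite.exists_ne_map_eq_of_infinite
      (fun p : ℕ => (fun j : Fin N => decide (0 < (μ ^ (K + 1 + p + (j : ℕ))).im)))
    rcases lt_or_gt_of_ne hne with h1 | h1
    · exact ⟨p, q, h1, heq⟩
    · exact ⟨q, p, h1, heq.symm⟩
  have key : ∀ i, 0 < (μ ^ (K + 1 + p + i)).im ↔ 0 < (μ ^ (K + 1 + q + i)).im := by
    intro i
    induction i using Nat.strong_induction_on with
    | _ i ih =>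
      by_cases hn : i < N
      · have := congrFun heq ⟨i, hn⟩
        simpa using this
      · obtain ⟨i', rfl⟩ : ∃ i', i = i' + N := ⟨i - N, by omega⟩
        have := hcon (K + 1 + p + i') (K + 1 + q + i') (by omega) (by omega) fun j hj => by
          have := ih (i' + j) (by omega)
          rwa [← add_assoc, ← add_assoc] at this
        rwa [add_assoc (K + 1 + p), add_assoc (K + 1 + q)] at this
  obtain ⟨T, hT, rfl⟩ : ∃ T, 0 < T ∧ q = p + T := ⟨q - p, by omega, by omega⟩
  have hper : ∀ j : ℕ, 0 < (μ ^ (K + 1 + p) * (μ ^ T) ^ j).im ↔ 0 < (μ ^ (K + 1 + p)).im := by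
    intro j
    induction j with
    | zero => simp
    | succ j ih =>
      rw [← ih]
      have := key (T * j)
      have e1 : μ ^ (K + 1 + p) * (μ ^ T) ^ j = μ ^ (K + 1 + p + T * j) := by
        rw [← pow_mul, ← pow_add]
      have e2 : μ ^ (K + 1 + p) * (μ ^ T) ^ (j + 1) = μ ^ (K + 1 + (p + T) + T * j) := by
        rw [← pow_mul, ← pow_add]
        congr 1
        ring
      rw [e1, e2]
      exact this.symm
  by_cases h0 : 0 < (μ ^ (K + 1 + p)).im
  · exact posrun (μ ^ T) (μ ^ (K + 1 + p)) (hμ T hT) fun j => (hper j).2 h0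
  · refine posrun (μ ^ T) (-μ ^ (K + 1 + p)) (hμ T hT) fun j => ?_
    have h1 := mt (hper j).1 h0
    have h2 : (μ ^ (K + 1 + p) * (μ ^ T) ^ j).im ≠ 0 := by
      rw [← pow_mul, ← pow_add]
      exact hμ _ (by omega)
    rw [neg_mul, Complex.neg_im]
    rcases lt_trichotomy (μ ^ (K + 1 + p) * (μ ^ T) ^ j).im 0 with h3 | h3 | h3
    · linarith
    · exact absurd h3 h2
    · exact absurd h3 h1

theorem no_monic (c : ℂ) (hc : c ≠ 0) (hμ : ∀ m, 0 < m → (μ ^ m).im ≠ 0) (P : ℂ[X])
    (hP : P.Monic) (K : ℕ) : ¬ ∀ k, K ≤ k → aeval E P (pp μ c) k = 0 := by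
  intro h
  have hfin : {k : ℕ | (W μ P.natDegree ⁻¹' {W μ P.natDegree k}).Finite}.Finite := by
    refine (Set.Finite.biUnion (t := fun w => W μ P.natDegree ⁻¹' {w})
      (Set.toFinite {w | (W μ P.natDegree ⁻¹' {w}).Finite}) fun w hw => hw).subset ?_
    intro k hk
    exact Set.mem_biUnion (x := W μ P.natDegree k) hk rfl
  obtain ⟨K1, hK1⟩ := hfin.bddAbove
  have hz : ∀ k, K + K1 + 1 ≤ k → co P μ (W μ P.natDegree k) = 0 := by
    intro k hk
    have h1 : ¬ (W μ P.natDegree ⁻¹' {W μ P.natDegree k}).Finite := by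
      intro h2
      have := hK1 h2
      omega
    obtain ⟨k', hk', hlt⟩ := Set.Infinite.exists_gt h1 k
    exact twice μ P c hc hμ k k' hlt (h k (by omega)) (h k' (by omega)) (Eq.symm hk')
  obtain ⟨k, k', hk, hk', h1, h2⟩ := special μ hμ P.natDegree (K + K1 + 1)
  have e1 := hz k hk
  have e2 := hz k' hk'
  unfold co at e1 e2
  rw [Fin.sum_univ_castSucc] at e1 e2
  have e3 : ∑ i : Fin P.natDegree, (if W μ P.natDegree k i.castSucc then
        P.coeff (i.castSucc : Fin (P.natDegree + 1)) * μ ^ ((i.castSucc : Fin (P.natDegree + 1)) : ℕ)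
        else 0) =
      ∑ i : Fin P.natDegree, (if W μ P.natDegree k' i.castSucc then
        P.coeff (i.castSucc : Fin (P.natDegree + 1)) * μ ^ ((i.castSucc : Fin (P.natDegree + 1)) : ℕ)
        else 0) := by
    refine Finset.sum_congr rfl fun i _ => ?_
    have : W μ P.natDegree k i.castSucc = W μ P.natDegree k' i.castSucc := by
      unfold W
      simp only [Fin.val_castSucc]
      exact decide_eq_decide.2 (h1 i i.2)
    rw [this]
  rw [e3] at e1
  have e4 := e1.trans e2.symm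
  have e5 := add_left_cancel e4
  have hμ0 : μ ≠ 0 := by
    intro h0
    apply hμ 1 one_pos
    simp [h0]
  have e6 : P.coeff (Fin.last P.natDegree : Fin (P.natDegree + 1)) *
      μ ^ ((Fin.last P.natDegree : Fin (P.natDegree + 1)) : ℕ) ≠ 0 := by
    rw [Fin.val_last, hP.coeff_natDegree, one_mul]
    exact pow_ne_zero _ hμ0
  unfold W at e5
  simp only [Fin.val_last, decide_eq_true_eq] at e5 e6
  by_cases a1 : 0 < (μ ^ (k + P.natDegree)).im
  · by_cases a2 : 0 < (μ ^ (k' + P.natDegree)).im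
    · exact h2 ⟨fun _ => a2, fun _ => a1⟩
    · rw [if_pos a1, if_neg a2] at e5
      exact e6 e5
  · by_cases a2 : 0 < (μ ^ (k' + P.natDegree)).im
    · rw [if_neg a1, if_pos a2] at e5
      exact e6 e5.symm
    · exact h2 ⟨fun a => absurd a a1, fun a => absurd a a2⟩

end Pool.Agent.KS6_73.OR
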