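import Pool.Agent.KS6_73.OR.Order
import Pool.Agent.KS6_73.OR.Rec

/-!
The monomial map of `ℂ^(3+m)` whose orders satisfy no linear recursion. The sequences `xs`, `ys`,
`ws` and `dd_lam` are those of the earlier run (library S06280, seeded_bde7d0ef).
-/

set_option autoImplicit false

open Polynomial

namespace Pool.Agent.KS6_73.OR

def ord : ℕ → ℕ × ℕ × ℕ
  | 0 => (1, 1, 1)
  | k + 1 => ((ord k).1 + (ord k).2.2, 2 * (ord k).1 + (ord k).2.1,
      2 * (ord k).2.1 + 2 * (ord k).2.2)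

def xs (k : ℕ) : ℕ := (ord k).1
def ys (k : ℕ) : ℕ := (ord k).2.1
def ws (k : ℕ) : ℕ := (ord k).2.2

lemma xs_zero : xs 0 = 1 := rfl
lemma ys_zero : ys 0 = 1 := rfl
lemma ws_zero : ws 0 = 1 := rfl
lemma xs_succ (k : ℕ) : xs (k + 1) = xs k + ws k := rfl
lemma ys_succ (k : ℕ) : ys (k + 1) = 2 * xs k + ys k := rfl
lemma ws_succ (k : ℕ) : ws (k + 1) = 2 * ys k + 2 * ws k := rfl

lemma ws_ge (k : ℕ) : xs k ≤ ws k := by
  rcases k with _ | _ | k
  · simp [xs_zero, ws_zero]
  · simp [xs_succ, ws_succ, xs_zero, ws_zero, ys_zero]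
  · have h1 := xs_succ (k + 1)
    have h2 := ws_succ (k + 1)
    have h3 := xs_succ k
    have h4 := ws_succ k
    have h5 := ys_succ k
    omega

lemma le_four (k : ℕ) : xs k ≤ 4 ^ k ∧ ys k ≤ 4 ^ k ∧ ws k ≤ 4 ^ k := by
  induction k with
  | zero => simp [xs_zero, ys_zero, ws_zero]
  | succ k ih =>
    have h1 := xs_succ k
    have h2 := ys_succ k
    have h3 := ws_succ k
    rw [pow_succ]
    omega

lemma xs_even (k : ℕ) : xs (k + 1) % 2 = 0 ∧ ws (k + 1) % 2 = 0 := by
  induction k with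
  | zero => simp [xs_succ, ws_succ, xs_zero, ws_zero, ys_zero]
  | succ k ih =>
    have h1 := xs_succ (k + 1)
    have h2 := ws_succ (k + 1)
    omega

lemma ys_odd (k : ℕ) : ys k % 2 = 1 := by
  induction k with
  | zero => simp [ys_zero]
  | succ k ih =>
    have h1 := ys_succ k
    omega

lemma ys_rec (k : ℕ) : (ys (k + 3) : ℤ) = 4 * ys (k + 2) - 5 * ys (k + 1) + 6 * ys k := by
  have a0 := xs_succ k
  have b0 := ys_succ k
  have c0 := ws_succ k
  have a1 := xs_succ (k + 1)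
  have b1 := ys_succ (k + 1)
  have c1 := ws_succ (k + 1)
  have b2 := ys_succ (k + 2)
  simp only [add_assoc, Nat.reduceAdd] at *
  omega

noncomputable def lam : ℂ := ⟨1 / 2, Real.sqrt 7 / 2⟩

lemma lam_sq : lam ^ 2 = lam - 2 := by
  have h7 : Real.sqrt 7 * Real.sqrt 7 = 7 := Real.mul_self_sqrt (by norm_num)
  rw [pow_two]
  apply Complex.ext
  · simp only [lam, Complex.mul_re, Complex.sub_re, Complex.re_ofNat]
    nlinarith
  · simp only [lam, Complex.mul_im, Complex.sub_im, Complex.im_ofNat]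
    ring

lemma dd_lam (k : ℕ) : (((xs k : ℤ) - (ys k : ℤ) : ℤ) : ℝ) * Real.sqrt 7 = -2 * (lam ^ k).im ∧
    (((xs (k + 1) : ℤ) - (ys (k + 1) : ℤ) : ℤ) : ℝ) * Real.sqrt 7 = -2 * (lam ^ (k + 1)).im := by
  induction k with
  | zero =>
    constructor
    · simp [xs_zero, ys_zero]
    · simp [xs_succ, ys_succ, xs_zero, ys_zero, ws_zero, lam]
      ring
  | succ k ih =>
    refine ⟨ih.2, ?_⟩
    have h1 : (xs (k + 1 + 1) : ℤ) - (ys (k + 1 + 1) : ℤ)
        = ((xs (k + 1) : ℤ) - (ys (k + 1) : ℤ)) - 2 * ((xs k : ℤ) - (ys k : ℤ)) := by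
      have a1 := xs_succ (k + 1)
      have a2 := ys_succ (k + 1)
      have a3 := xs_succ k
      have a4 := ys_succ k
      have a5 := ws_succ k
      omega
    have h2 : lam ^ (k + 1 + 1) = lam ^ (k + 1) - 2 * lam ^ k := by
      have : lam ^ (k + 1 + 1) = lam ^ k * lam ^ 2 := by ring
      rw [this, lam_sq]; ring
    rw [h1, h2]
    have h3 : (lam ^ (k + 1) - 2 * lam ^ k).im = (lam ^ (k + 1)).im - 2 * (lam ^ k).im := by
      simp [Complex.sub_im, Complex.mul_im]
    rw [h3]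
    have i1 := ih.1
    have i2 := ih.2
    push_cast at i1 i2 ⊢
    linarith

lemma lam_im (m : ℕ) (hm : 0 < m) : (lam ^ m).im ≠ 0 := by
  intro h0
  have hs7 : 0 < Real.sqrt 7 := Real.sqrt_pos.mpr (by norm_num)
  have h1 := (dd_lam m).1
  rw [h0, mul_zero] at h1
  have h2 := (mul_eq_zero.mp h1).resolve_right hs7.ne'
  have h3 : (xs m : ℤ) - (ys m : ℤ) = 0 := by exact_mod_cast h2
  obtain ⟨t, rfl⟩ : ∃ t, m = t + 1 := ⟨m - 1, by omega⟩
  have h4 := (xs_even t).1
  have h5 := ys_odd (t + 1)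
  omega

lemma min_sub (k : ℕ) : ((min (xs k) (ys k) : ℕ) : ℂ) - (ys k : ℂ) =
    pp lam (((-2 / Real.sqrt 7 : ℝ)) : ℂ) k := by
  have hs7 : 0 < Real.sqrt 7 := Real.sqrt_pos.mpr (by norm_num)
  have h1 := (dd_lam k).1
  have h2 : ((xs k : ℝ) - (ys k : ℝ)) = (-2 / Real.sqrt 7) * (lam ^ k).im := by
    push_cast at h1
    field_simp
    linarith
  unfold pp
  by_cases h : 0 < (lam ^ k).im
  · rw [if_pos h]
    have h3 : (xs k : ℝ) < ys k := by
      have : (-2 / Real.sqrt 7) * (lam ^ k).im < 0 := by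
        apply mul_neg_of_neg_of_pos _ h
        exact div_neg_of_neg_of_pos (by norm_num) hs7
      linarith
    have h4 : xs k ≤ ys k := by exact_mod_cast h3.le
    rw [min_eq_left h4]
    have h5 : (((xs k : ℝ) - (ys k : ℝ) : ℝ) : ℂ) = (((-2 / Real.sqrt 7) * (lam ^ k).im : ℝ) : ℂ) :=
      congrArg _ h2
    push_cast at h5 ⊢
    exact h5
  · rw [if_neg h]
    have h3 : (ys k : ℝ) ≤ xs k := by
      have : 0 ≤ (-2 / Real.sqrt 7) * (lam ^ k).im := by
        apply mul_nonneg_of_nonpos_of_nonpos _ (not_lt.1 h)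
        exact (div_neg_of_neg_of_pos (by norm_num) hs7).le
      linarith
    have h4 : ys k ≤ xs k := by exact_mod_cast h3
    rw [min_eq_right h4, sub_self]

/-- `u` satisfies from some point on a linear recursion with coefficients in `R` -/
def Recursive (R : Type) [CommRing R] (u : ℕ → ℕ) : Prop :=
  ∃ (d : ℕ) (a : Fin d → R) (K : ℕ), ∀ k : ℕ, K ≤ k →
    (u (k + d) : R) = ∑ i : Fin d, a i * (u (k + (i : ℕ)) : R)

theorem not_recursive : ¬ Recursive ℂ fun k => min (xs k) (ys k) := by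
  rintro ⟨d, a, K, h⟩
  let u : ℕ → ℂ := fun k => ((min (xs k) (ys k) : ℕ) : ℂ)
  let y : ℕ → ℂ := fun k => (ys k : ℂ)
  let q : ℂ[X] := X ^ 3 - (C 4 * X ^ 2 - C 5 * X + C 6)
  let p : ℂ[X] := X ^ d - ∑ i : Fin d, C (a i) * X ^ (i : ℕ)
  have hp : p.Monic := monic_X_pow_sub (Polynomial.degree_sum_fin_lt a)
  have hq : q.Monic := by
    apply monic_X_pow_sub
    compute_degree
    exact Nat.cast_lt.2 (by norm_num)
  have hqy : aeval E q y = 0 := by
    funext k
    simp only [q, map_sub, map_add, map_mul, map_pow, aeval_X, aeval_C, LinearMap.sub_apply,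
      LinearMap.add_apply, Module.algebraMap_end_apply, Module.End.mul_apply, Pi.sub_apply,
      Pi.add_apply, Pi.smul_apply, smul_eq_mul, E_pow, Pi.zero_apply]
    have h1 : E y k = y (k + 1) := rfl
    rw [h1]
    have h2 := ys_rec k
    have h3 : ((ys (k + 3) : ℤ) : ℂ) = ((4 * ys (k + 2) - 5 * ys (k + 1) + 6 * ys k : ℤ) : ℂ) :=
      congrArg _ h2
    simp only [y]
    push_cast at h3
    rw [h3]
    ring
  have hpu : ∀ k, K ≤ k → aeval E p u k = 0 := by
    intro k hk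
    have h1 := h k hk
    simp only [p, map_sub, map_sum, map_mul, map_pow, aeval_X, aeval_C, LinearMap.sub_apply,
      LinearMap.sum_apply, Module.algebraMap_end_apply, Module.End.mul_apply, Pi.sub_apply,
      Finset.sum_apply, Pi.smul_apply, smul_eq_mul, E_pow]
    simp only [u]
    rw [h1, sub_self]
  have hc : (((-2 / Real.sqrt 7 : ℝ)) : ℂ) ≠ 0 := by
    have hs7 : 0 < Real.sqrt 7 := Real.sqrt_pos.mpr (by norm_num)
    exact_mod_cast (div_ne_zero (by norm_num) hs7.ne')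
  refine no_monic lam _ hc lam_im (q * p) (hq.mul hp) K fun k hk => ?_
  have e1 : pp lam (((-2 / Real.sqrt 7 : ℝ)) : ℂ) = u - y := by
    funext k
    exact (min_sub k).symm
  rw [e1, map_sub]
  have e2 : aeval E (q * p) y = 0 := by
    rw [mul_comm, map_mul, Module.End.mul_apply, hqy, map_zero]
  rw [e2, sub_zero, map_mul, Module.End.mul_apply, aeval_E]
  refine Finset.sum_eq_zero fun i _ => ?_
  rw [hpu (k + i) (by omega), mul_zero]

/-- the `3 × 3` block -/
def A3 : Matrix (Fin 3) (Fin 3) ℕ := !![1, 0, 1; 2, 1, 0; 0, 2, 2]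

/-- the matrix on `Fin 3 ⊕ Fin m` -/
def B (m : ℕ) : Matrix (Fin 3 ⊕ Fin m) (Fin 3 ⊕ Fin m) ℕ :=
  Matrix.fromBlocks A3 0 0 (Matrix.diagonal fun _ => 4)

/-- the matrix on `Fin (3 + m)` -/
def M (m : ℕ) : Matrix (Fin (3 + m)) (Fin (3 + m)) ℕ :=
  (B m).reindex finSumFinEquiv finSumFinEquiv

lemma dg_M (m k : ℕ) : ∀ s : Fin 3 ⊕ Fin m, dg (M m) k (finSumFinEquiv s) =
    Sum.elim ![xs k, ys k, ws k] (fun _ => 4 ^ k) s := by
  induction k with
  | zero =>
    rintro (i | i)
    · fin_cases i <;> rfl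
    · rfl
  | succ k ih =>
    intro s
    show ∑ j, (M m) (finSumFinEquiv s) j * dg (M m) k j = _
    rw [← finSumFinEquiv.sum_comp, Fintype.sum_sum_type]
    simp only [ih, Sum.elim_inl, Sum.elim_inr]
    rcases s with i | i
    · fin_cases i <;>
        simp [M, B, A3, Fin.sum_univ_three, xs_succ, ys_succ, ws_succ]
    · simp [M, B, Matrix.diagonal_apply, pow_succ, mul_comm]

lemma order_M (m k : ℕ) : order ((mono (M m))^[k]) = min (xs k) (ys k) := by
  have h4 := le_four k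
  have hw := ws_ge k
  have key : ∀ i : Fin 3, dg (M m) k (finSumFinEquiv (Sum.inl i)) = min (xs k) (ys k) →
      order ((mono (M m))^[k]) = min (xs k) (ys k) := by
    intro i hi
    rw [order_eq (M m) k (finSumFinEquiv (Sum.inl i)), hi]
    intro j
    rw [hi]
    obtain ⟨s, rfl⟩ := finSumFinEquiv.surjective j
    rw [dg_M]
    rcases s with j | j
    · fin_cases j
      · simp
      · simp
      · simp [hw]
    · simp [h4.1]
  rcases min_choice (xs k) (ys k) with h | h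
  · exact key 0 (by rw [dg_M, h]; rfl)
  · exact key 1 (by rw [dg_M, h]; rfl)

lemma det_M (m : ℕ) : ((M m).map (fun a => (a : ℂ))).det ≠ 0 := by
  have h1 : (M m).map (fun a => (a : ℂ)) =
      (Matrix.fromBlocks (A3.map (fun a => (a : ℂ))) 0 0
        (Matrix.diagonal fun _ : Fin m => (4 : ℂ))).reindex finSumFinEquiv finSumFinEquiv := by
    ext i j
    obtain ⟨s, rfl⟩ := finSumFinEquiv.surjective i
    obtain ⟨t, rfl⟩ := finSumFinEquiv.surjective j
    rcases s with s | s <;> rcases t with t | t <;>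
      simp [M, B, Matrix.diagonal_apply, apply_ite (Nat.cast : ℕ → ℂ)]
  rw [h1, Matrix.det_reindex_self, Matrix.det_fromBlocks_zero₂₁, Matrix.det_diagonal]
  apply mul_ne_zero
  · rw [Matrix.det_fin_three]
    simp [A3]
    norm_num
  · exact Finset.prod_ne_zero_iff.2 fun _ _ => by norm_num

theorem exists_map (m : ℕ) : mono (M m) 0 = 0 ∧ fderiv ℂ (mono (M m)) 0 = 0 ∧
    (∀ ε : ℝ, 0 < ε → ∃ z : Fin (3 + m) → ℂ, ‖z‖ < ε ∧ (fderiv ℂ (mono (M m)) z).det ≠ 0) ∧
    ¬ Recursive ℂ fun k => order ((mono (M m))^[k]) := by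
  have h1 : ∀ j, 2 ≤ dg (M m) 1 j := by
    intro j
    obtain ⟨s, rfl⟩ := finSumFinEquiv.surjective j
    rw [dg_M]
    rcases s with j | j
    · fin_cases j <;> simp [xs_succ, ys_succ, ws_succ, xs_zero, ys_zero, ws_zero]
    · simp
  refine ⟨?_, ?_, fun ε hε => ?_, ?_⟩
  · have h2 := order_lower (M m) 1 0 fun i => by have := h1 i; omega
    rw [Function.iterate_one] at h2
    have h3 : ‖iteratedFDeriv ℂ 0 (mono (M m)) 0‖ = 0 := by rw [h2, norm_zero]
    rw [norm_iteratedFDeriv_zero] at h3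
    exact norm_eq_zero.1 h3
  · have h2 := order_lower (M m) 1 1 fun i => by have := h1 i; omega
    rw [Function.iterate_one] at h2
    have h3 : ‖iteratedFDeriv ℂ 1 (mono (M m)) 0‖ = 0 := by rw [h2, norm_zero]
    rw [norm_iteratedFDeriv_one] at h3
    exact norm_eq_zero.1 h3
  · refine ⟨fun _ => ((ε / 2 : ℝ) : ℂ), ?_, det_diag (M m) (det_M m) _ ?_⟩
    · rw [pi_norm_lt_iff hε]
      intro i
      rw [Complex.norm_real, Real.norm_eq_abs, abs_of_pos (by positivity)]
      linarith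
    · exact_mod_cast (by positivity : ε / 2 ≠ 0)
  · have : (fun k => order ((mono (M m))^[k])) = fun k => min (xs k) (ys k) :=
      funext fun k => order_M m k
    rw [this]
    exact not_recursive

end Pool.Agent.KS6_73.OR
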